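import Pool.Agent.J4H64.MQ.Def

set_option autoImplicit false

/-! Project MQ, piece NNF: circuits with all NOT gates at the inputs. -/

namespace Pool.Agent.J4H72.MQ

open Finset Pool.Agent.J4H64.MN Pool.Agent.J4H64.MQ

theorem t_NNF : S_NNF := by
  classical
  intro I C hC
  refine ⟨fun _ => 0, ?_, ?_⟩
  · intro j i hi
    refine ⟨le_rfl, fun hk => ?_⟩
    rw [hC j hk] at hi
    simp at hi
  · have h1 : (univ : Finset (Fin C.m)).image (fun _ => 0) = ({0} : Finset ℕ) := by
      refine Finset.image_const ⟨C.o, Finset.mem_univ _⟩ 0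
    rw [h1, Finset.prod_singleton]
    refine Nat.succ_le_succ (le_of_eq ?_)
    unfold NCirc.nots
    congr 1
    ext j
    simp

end Pool.Agent.J4H72.MQ
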